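import Pool.Agent.W622.ETG.Lin

/-!
Project ELG (helper622), part B2: in case B all bad blocks are hyperplanes.
-/

set_option autoImplicit false

namespace Pool.Agent.W804.ELG

open Pool.Agent.W622.ETG Module

section
variable {V : Type} [AddCommGroup V] [Module (ZMod 2) V] [Finite V]

lemma B2_sum (s : Finset (DSub V)) (hs : sSupIndep (s : Set (DSub V)))
    (Y : DSub V) (hY : ∀ X ∈ s, X ≤ Y) : ∑ X ∈ s, finrank (ZMod 2) X ≤ finrank (ZMod 2) Y := by
  rw [← idim s hs]
  exact Submodule.finrank_mono (sSup_le fun X hX => hY X (by simpa using hX))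

/-- the main step -/
lemma B2_key (hBNT : S_BNT) (hBEV : S_BEV) (hCB1 : S_CB1) (hNGC : S_NGC)
    (hEXC : S_EXC) (hB1B : S_B1B) (hB1A : S_B1A) {e : V} {A : Fam V} (hA : CB e A) {F : DSub V}
    (hF : F ∈ BB e A) (hmin : ∀ F' ∈ BB e A, finrank (ZMod 2) F ≤ finrank (ZMod 2) F') :
    finrank (ZMod 2) V ≤ finrank (ZMod 2) F + 1 := by
  classical
  set n := finrank (ZMod 2) V with hn
  by_contra hcon
  push Not at hcon
  -- dimensions of blocks
  have hd1 : ∀ X, Block e A X → 1 ≤ finrank (ZMod 2) X := by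
    intro X hX
    rw [Nat.one_le_iff_ne_zero]
    intro h0
    exact (hBNT V e A X hA.mc hX).2 (Submodule.finrank_eq_zero.1 h0)
  have hf2 : 2 ≤ finrank (ZMod 2) F := (hBEV V e A hA.mc F hF).2
  obtain ⟨c, hc, hnc, hnc'⟩ := hNGC V e A F hA hF
  obtain ⟨h1, _, h3⟩ := hCB1 V e A c hA hc
  -- the blocks killed by `c`
  have hBL : ∀ s : Finset (DSub V), (s : Set (DSub V)) ⊆ BL e A c →
      ∑ X ∈ s, finrank (ZMod 2) X + 1 ≤ n := by
    intro s hs
    have h4 := B2_sum s (h1.1.mono hs) (sSup (BL e A c)) fun X hX => le_sSup (hs hX)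
    omega
  set G : Set (DSub V) := {X | X ∈ BL e A c ∧ Good A X} with hG
  set B : Set (DSub V) := {X | X ∈ BL e A c ∧ ¬ Good A X} with hB
  set GF : Finset (DSub V) := (Set.toFinite G).toFinset with hGF
  set BF : Finset (DSub V) := (Set.toFinite B).toFinset with hBF
  have hGm : ∀ X, X ∈ GF ↔ X ∈ G := by intro X; simp [hGF]
  have hBm : ∀ X, X ∈ BF ↔ X ∈ B := by intro X; simp [hBF]
  have hGc : (GF : Set (DSub V)) = G := by simp [hGF]
  have hdis : Disjoint GF BF := by
    rw [Finset.disjoint_left]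
    intro X hX hX'
    exact ((hBm X).1 hX').2 ((hGm X).1 hX).2
  have hBLe : BL e A c = ((GF ∪ BF : Finset (DSub V)) : Set (DSub V)) := by
    ext X
    rw [Finset.mem_coe, Finset.mem_union, hGm, hBm]
    constructor
    · intro hX
      by_cases hg : Good A X
      · exact Or.inl ⟨hX, hg⟩
      · exact Or.inr ⟨hX, hg⟩
    · rintro (h | h)
      · exact h.1
      · exact h.1
  have hcardBL : (BL e A c).ncard = GF.card + BF.card := by
    rw [hBLe, Set.ncard_coe_finset, Finset.card_union_of_disjoint hdis]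
  have hsum := hBL (GF ∪ BF) hBLe.ge
  rw [Finset.sum_union hdis] at hsum
  have sG : GF.card ≤ ∑ X ∈ GF, finrank (ZMod 2) X := by
    have := Finset.card_nsmul_le_sum GF (fun X => finrank (ZMod 2) X) 1
      (fun X hX => hd1 X ((hGm X).1 hX).1.1)
    simpa using this
  have sB : BF.card * finrank (ZMod 2) F ≤ ∑ X ∈ BF, finrank (ZMod 2) X := by
    have := Finset.card_nsmul_le_sum BF (fun X => finrank (ZMod 2) X) (finrank (ZMod 2) F)
      (fun X hX => hmin X ⟨((hBm X).1 hX).1.1, ((hBm X).1 hX).2⟩)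
    simpa using this
  have hFG : F ∉ GF := by
    rw [hGm]
    intro h
    exact hF.2 h.2
  by_cases hind : sSupIndep (insert F G)
  · -- independent
    have s1 : finrank (ZMod 2) F + ∑ X ∈ GF, finrank (ZMod 2) X ≤ n := by
      have h1 := B2_sum (insert F GF) (by rw [Finset.coe_insert, hGc]; exact hind) ⊤
        (fun X _ => le_top)
      rw [Finset.sum_insert hFG, finrank_top, finrank_Dl] at h1
      exact h1
    set f := finrank (ZMod 2) F with hf
    set k := BF.card with hk
    set g := GF.card with hg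
    by_cases hne : ∃ X ∈ BL e A c, Good A X
    · have h5 := hnc' hne
      rw [hcardBL] at h5
      -- k ≥ 1
      have hk1 : 1 ≤ k := by omega
      obtain ⟨f', hf'⟩ : ∃ f', f = f' + 2 := ⟨f - 2, by omega⟩
      obtain ⟨k', hk'⟩ : ∃ k', k = k' + 1 := ⟨k - 1, by omega⟩
      rw [hf', hk'] at sB
      have : (k' + 1) * (f' + 2) = k' * f' + 2 * k' + f' + 2 := by ring
      have hpos : 0 ≤ k' * f' := Nat.zero_le _
      omega
    · have hg0 : g = 0 := by
        rw [hg, Finset.card_eq_zero, Finset.eq_empty_iff_forall_notMem]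
        intro X hX
        rw [hGm] at hX
        exact hne ⟨X, hX.1, hX.2⟩
      rw [hcardBL] at hnc
      obtain ⟨f', hf'⟩ : ∃ f', f = f' + 2 := ⟨f - 2, by omega⟩
      obtain ⟨k', hk'⟩ : ∃ k', k = k' + 2 := ⟨k - 2, by omega⟩
      rw [hf', hk'] at sB
      have : (k' + 2) * (f' + 2) = k' * f' + 2 * k' + 2 * f' + 4 := by ring
      have hpos : 0 ≤ k' * f' := Nat.zero_le _
      omega
  · -- a circuit
    have hex : ∃ N : Finset (DSub V), N ⊆ GF ∧ ¬ sSupIndep (insert F (N : Set (DSub V))) :=
      ⟨GF, subset_rfl, by rw [hGc]; exact hind⟩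
    obtain ⟨N, hN⟩ : ∃ N : Finset (DSub V), Minimal
        (fun N : Finset (DSub V) => N ⊆ GF ∧ ¬ sSupIndep (insert F (N : Set (DSub V)))) N :=
      exists_minimal_of_wellFoundedLT _ hex
    have hNG : ∀ X ∈ N, X ∈ G := fun X hX => (hGm X).1 (hN.prop.1 hX)
    have hNGB : (N : Set (DSub V)) ⊆ GB e A := fun X hX => ⟨(hNG X hX).1.1, (hNG X hX).2⟩
    have hNBL : (N : Set (DSub V)) ⊆ BL e A c := fun X hX => (hNG X hX).1
    have hFN : F ∉ N := fun h => hFG (hN.prop.1 h)
    have hprop : ∀ D' : Set (DSub V), D' ⊆ insert F (N : Set (DSub V)) →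
        D' ≠ insert F (N : Set (DSub V)) → sSupIndep D' := by
      intro D' hD' hne
      by_cases hFD : F ∈ D'
      · -- `D' = {F} ∪ N'`
        set N' : Finset (DSub V) := N.filter (fun X => X ∈ D') with hN'
        have hD'' : D' = insert F (N' : Set (DSub V)) := by
          ext X
          constructor
          · intro hX
            rcases hD' hX with h | h
            · exact Or.inl h
            · refine Or.inr ?_
              rw [Finset.mem_coe, hN', Finset.mem_filter]
              exact ⟨h, hX⟩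
          · rintro (h | h)
            · rw [h]; exact hFD
            · rw [Finset.mem_coe, hN', Finset.mem_filter] at h
              exact h.2
        by_contra hni
        have hle : N' ≤ N := Finset.filter_subset _ _
        have h6 : N ≤ N' := hN.le_of_le ⟨hle.trans hN.prop.1, by rw [← hD'']; exact hni⟩ hle
        have h7 : N' = N := le_antisymm hle h6
        apply hne
        rw [hD'', h7]
      · refine (h1.1.mono hNBL).mono ?_
        intro X hX
        rcases hD' hX with h | h
        · rw [h] at hX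
          exact absurd hX hFD
        · exact h
    obtain ⟨d, hd, hN2, hdim, hnf, _⟩ := hEXC V e A F N hA hF hNGB hN.prop.2 hprop
    have hNne : N.Nonempty := Finset.card_pos.1 (by omega)
    obtain ⟨X0, hX0⟩ := hNne
    have hgood : ∃ X ∈ BL e A c, Good A X := ⟨X0, (hNG X0 hX0).1, (hNG X0 hX0).2⟩
    have h8 := hnc' hgood
    rcases Nat.lt_or_ge d 2 with hd2 | hd2
    · have hd1' : d = 1 := by omega
      subst hd1'
      rcases Nat.lt_or_ge N.card 3 with h9 | h9
      · have : N.card = 2 := by omega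
        rw [this] at hnf
        omega
      · exact hB1A V e A F N hA hF hNGB hN.prop.2 hprop (fun X hX => hdim X (hNGB hX)) h9
    · exact hB1B V e A F c N d hA hF hc h8 hNGB hNBL hN.prop.2 hprop hd2
        (fun X hX => hdim X (hNGB hX))

end

theorem t_B2 (hBNT : S_BNT) (hBEV : S_BEV) (hCB1 : S_CB1) (hNGC : S_NGC)
    (hEXC : S_EXC) (hB1B : S_B1B) (hB1A : S_B1A) : S_B2 := by
  intro V _ _ _ e A hA F hF
  have hlt : ∀ F' ∈ BB e A, finrank (ZMod 2) F' + 1 ≤ finrank (ZMod 2) V := by
    intro F' hF'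
    have := Submodule.finrank_lt (hBNT V e A F' hA.mc hF'.1).1
    rw [finrank_Dl] at this
    omega
  obtain ⟨F0, hF0, hmin⟩ := Set.exists_min_image (BB e A) (fun F => finrank (ZMod 2) F)
    (Set.toFinite _) ⟨F, hF⟩
  have h1 := B2_key hBNT hBEV hCB1 hNGC hEXC hB1B hB1A hA hF0 hmin
  have h2 := hmin F hF
  have h3 := hlt F hF
  omega

end Pool.Agent.W804.ELG
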